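import Mathlib
import Pool.Agent.TS.Alg

set_option autoImplicit false
set_option linter.unusedSectionVars false
set_option linter.unusedSimpArgs false

/-! Graphs with three eigenvalues: a Bessel inequality for second differences. -/

namespace VB

open Finset TE TS

variable {V : Type*} [Fintype V] [DecidableEq V]
variable {G : SimpleGraph V} [DecidableRel G.Adj] {T θ0 θ1 θ2 : ℝ} {α : V → ℝ}

/-- the square norm of `A z` -/
lemma norm_A (h : Dat G T θ0 θ1 θ2 α) (z : V → ℝ) :
    ∑ x, (∑ y, ad G x y * z y) ^ 2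
      = (θ1 + θ2) * qf G z - θ1 * θ2 * ∑ x, z x ^ 2 + (∑ x, α x * z x) ^ 2 := by
  have h1 : ∑ x, (∑ y, ad G x y * z y) ^ 2 = ∑ x, z x * ∑ y, ad G x y * (∑ w, ad G y w * z w) := by
    rw [ad_adjoint]
    refine Finset.sum_congr rfl fun x _ => ?_
    ring
  rw [h1]
  have h2 : ∀ x, z x * ∑ y, ad G x y * (∑ w, ad G y w * z w)
      = (θ1 + θ2) * (z x * ∑ w, ad G x w * z w) - θ1 * θ2 * z x ^ 2
        + (∑ w, α w * z w) * (α x * z x) := by
    intro x
    have := h.op z x
    linear_combination z x * this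
  rw [Finset.sum_congr rfl fun x _ => h2 x, Finset.sum_add_distrib, Finset.sum_sub_distrib,
    ← Finset.mul_sum, ← Finset.mul_sum, ← Finset.mul_sum]
  unfold qf
  ring

/-- the Bessel inequality for vectors orthogonal to the constants and to `α` -/
lemma bessel (h : Dat G T θ0 θ1 θ2 α) (z : V → ℝ) (hz1 : ∑ x, z x = 0)
    (hz2 : ∑ x, α x * z x = 0) :
    (∑ x, z x * α x ^ 2) ^ 2
      ≤ (Fintype.card V : ℝ) * ((θ1 + θ2) * qf G z - θ1 * θ2 * ∑ x, z x ^ 2) := by
  have h1 : ∑ x, z x * α x ^ 2 = ∑ x, z x * (G.degree x : ℝ) := by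
    have : ∀ x, z x * (G.degree x : ℝ) = z x * α x ^ 2 - θ1 * θ2 * z x := by
      intro x; rw [h.diag x]; ring
    rw [Finset.sum_congr rfl fun x _ => this x, Finset.sum_sub_distrib, ← Finset.mul_sum, hz1]
    ring
  have h2 : ∑ x, z x * (G.degree x : ℝ) = ∑ x, (∑ y, ad G x y * z y) := by
    have h3 : ∀ x, (G.degree x : ℝ) = ∑ y, ad G x y * 1 := by
      intro x; rw [← sum_ad]; simp
    rw [Finset.sum_congr rfl fun x _ => by rw [h3 x], ad_adjoint]
    simp
  have h3 := norm_A h z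
  rw [hz2] at h3
  rw [h1, h2]
  have h4 : (∑ x, (∑ y, ad G x y * z y)) ^ 2
      ≤ (Fintype.card V : ℝ) * ∑ x, (∑ y, ad G x y * z y) ^ 2 := by
    have := sq_sum_le_card_mul_sum_sq (s := (Finset.univ : Finset V))
      (f := fun x => ∑ y, ad G x y * z y)
    simpa [Finset.card_univ] using this
  calc _ ≤ _ := h4
    _ = _ := by rw [h3]; ring

/-- the Bessel inequality for a combination of distinct vertices -/
lemma bessel_fam (h : Dat G T θ0 θ1 θ2 α) {J : Type*} [Fintype J] [DecidableEq J] (w : J → V)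
    (hw : Function.Injective w) (c : J → ℝ) (hc1 : ∑ j, c j = 0) (hc2 : ∑ j, c j * α (w j) = 0) :
    (∑ j, c j * α (w j) ^ 2) ^ 2
      ≤ (Fintype.card V : ℝ) * (|θ1 + θ2| * (∑ j, |c j|) ^ 2 - θ1 * θ2 * ∑ j, c j ^ 2) := by
  set z : V → ℝ := fun x => ∑ j, if w j = x then c j else 0 with hz
  have key : ∀ φ : V → ℝ, ∑ x, φ x * z x = ∑ j, c j * φ (w j) := by
    intro φ
    rw [hz]
    simp only [Finset.mul_sum]
    rw [Finset.sum_comm]
    refine Finset.sum_congr rfl fun j _ => ?_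
    have : ∀ x, φ x * (if w j = x then c j else 0) = if w j = x then c j * φ x else 0 := by
      intro x; split_ifs <;> ring
    rw [Finset.sum_congr rfl fun x _ => this x]
    simp
  have hzw : ∀ j, z (w j) = c j := by
    intro j
    rw [hz]
    simp only [hw.eq_iff]
    simp
  have e1 : ∑ x, z x = 0 := by
    have := key (fun _ => 1)
    simp only [one_mul, mul_one] at this
    rw [this, hc1]
  have e2 : ∑ x, α x * z x = 0 := by rw [key α, hc2]
  have e3 : ∑ x, z x * α x ^ 2 = ∑ j, c j * α (w j) ^ 2 := by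
    rw [← key (fun x => α x ^ 2)]
    exact Finset.sum_congr rfl fun x _ => by ring
  have e4 : ∑ x, z x ^ 2 = ∑ j, c j ^ 2 := by
    have := key z
    calc ∑ x, z x ^ 2 = ∑ x, z x * z x := Finset.sum_congr rfl fun x _ => by ring
      _ = ∑ j, c j * z (w j) := this
      _ = _ := Finset.sum_congr rfl fun j _ => by rw [hzw j]; ring
  have e5 : qf G z = ∑ j, ∑ k, c j * (c k * ad G (w j) (w k)) := by
    unfold qf
    have h1 : ∀ x, ∑ y, ad G x y * z y = ∑ k, c k * ad G x (w k) := fun x => key (fun y => ad G x y)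
    have h2 : ∑ x, z x * ∑ y, ad G x y * z y = ∑ x, (∑ k, c k * ad G x (w k)) * z x := by
      refine Finset.sum_congr rfl fun x _ => ?_
      rw [h1 x]; ring
    rw [h2, key (fun x => ∑ k, c k * ad G x (w k))]
    refine Finset.sum_congr rfl fun j _ => ?_
    rw [Finset.mul_sum]
  have e6 : |qf G z| ≤ (∑ j, |c j|) ^ 2 := by
    rw [e5, sq, Finset.sum_mul_sum]
    refine (Finset.abs_sum_le_sum_abs _ _).trans (Finset.sum_le_sum fun j _ => ?_)
    refine (Finset.abs_sum_le_sum_abs _ _).trans (Finset.sum_le_sum fun k _ => ?_)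
    rw [abs_mul, abs_mul]
    have h1 : |ad G (w j) (w k)| ≤ 1 := by
      unfold ad; split_ifs <;> simp
    have h2 := abs_nonneg (c j)
    have h3 := abs_nonneg (c k)
    calc |c j| * (|c k| * |ad G (w j) (w k)|) ≤ |c j| * (|c k| * 1) :=
          mul_le_mul_of_nonneg_left (mul_le_mul_of_nonneg_left h1 h3) h2
      _ = |c j| * |c k| := by ring
  have h1 := bessel h z e1 e2
  rw [e3, e4] at h1
  refine h1.trans (mul_le_mul_of_nonneg_left ?_ (Nat.cast_nonneg _))
  have h2 : (θ1 + θ2) * qf G z ≤ |θ1 + θ2| * (∑ j, |c j|) ^ 2 := by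
    calc (θ1 + θ2) * qf G z ≤ |(θ1 + θ2) * qf G z| := le_abs_self _
      _ = |θ1 + θ2| * |qf G z| := abs_mul _ _
      _ ≤ _ := mul_le_mul_of_nonneg_left e6 (abs_nonneg _)
  linarith

/-- three points: second difference coefficients -/
lemma three {p q r M : ℝ} (hM : 0 < M) (h1 : M ≤ q - p) (h2 : M ≤ r - q) :
    ∃ a b c : ℝ, a + b + c = 0 ∧ a * p + b * q + c * r = 0 ∧ a * p ^ 2 + b * q ^ 2 + c * r ^ 2 = 1
      ∧ |a| ≤ 1 / (2 * M ^ 2) ∧ |b| ≤ 1 / M ^ 2 ∧ |c| ≤ 1 / (2 * M ^ 2) := by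
  have hpq : 0 < q - p := by linarith
  have hqr : 0 < r - q := by linarith
  have hpr : 0 < r - p := by linarith
  have hpr2 : 2 * M ≤ r - p := by linarith
  refine ⟨1 / ((q - p) * (r - p)), -(1 / ((q - p) * (r - q))), 1 / ((r - p) * (r - q)), ?_, ?_, ?_,
    ?_, ?_, ?_⟩
  · field_simp; ring
  · field_simp; ring
  · field_simp; ring
  · rw [abs_of_pos (by positivity)]
    apply one_div_le_one_div_of_le (by positivity)
    nlinarith
  · rw [abs_neg, abs_of_pos (by positivity)]
    apply one_div_le_one_div_of_le (by positivity)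
    nlinarith
  · rw [abs_of_pos (by positivity)]
    apply one_div_le_one_div_of_le (by positivity)
    nlinarith

end VB
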