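import Mathlib
import Pool.Agent.VB.A

set_option autoImplicit false
set_option linter.unusedSectionVars false
set_option linter.unusedSimpArgs false

/-! Graphs with three eigenvalues: the absolute bound. -/

namespace VB

open Finset TE TS

/-- rank of a Hadamard square -/
theorem hadamard_rank {V : Type*} [Fintype V] [DecidableEq V] (B : V → V → ℝ)
    (W : Submodule ℝ (V → ℝ)) (hB : ∀ x, B x ∈ W) (l : ℝ) (hl : l ≠ 0)
    (hH : ∀ x y, B x y ^ 2 - B x y = if x = y then l else 0) :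
    Fintype.card V ≤ Module.finrank ℝ W ^ 2 + Module.finrank ℝ W := by
  classical
  let μ : (TensorProduct ℝ W W) →ₗ[ℝ] (V → ℝ) :=
    (LinearMap.mul' ℝ (V → ℝ)) ∘ₗ (TensorProduct.map W.subtype W.subtype)
  let ν : ((TensorProduct ℝ W W) × W) →ₗ[ℝ] (V → ℝ) := μ.coprod (-W.subtype)
  have hmem : ∀ x, (Pi.single x (1 : ℝ) : V → ℝ) ∈ LinearMap.range ν := by
    intro x
    have h1 : ν ((⟨B x, hB x⟩ : W) ⊗ₜ[ℝ] (⟨B x, hB x⟩ : W), ⟨B x, hB x⟩)
        = l • (Pi.single x (1 : ℝ) : V → ℝ) := by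
      ext y
      simp only [ν, μ, LinearMap.coprod_apply, LinearMap.comp_apply, TensorProduct.map_tmul,
        LinearMap.mul'_apply, Submodule.subtype_apply, LinearMap.neg_apply, Pi.add_apply,
        Pi.mul_apply, Pi.neg_apply, Pi.smul_apply, smul_eq_mul]
      have := hH x y
      by_cases hxy : x = y
      · subst hxy
        rw [if_pos rfl] at this
        rw [Pi.single_eq_same]; linarith
      · rw [if_neg hxy] at this
        rw [Pi.single_eq_of_ne (Ne.symm hxy)]; linarith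
    have h2 : (Pi.single x (1 : ℝ) : V → ℝ)
        = l⁻¹ • ν ((⟨B x, hB x⟩ : W) ⊗ₜ[ℝ] (⟨B x, hB x⟩ : W), ⟨B x, hB x⟩) := by
      rw [h1, smul_smul, inv_mul_cancel₀ hl, one_smul]
    rw [h2]
    exact Submodule.smul_mem _ _ (LinearMap.mem_range_self _ _)
  have htop : LinearMap.range ν = ⊤ := by
    rw [eq_top_iff]
    intro v _
    have : v = ∑ x, v x • (Pi.single x (1 : ℝ) : V → ℝ) := by
      ext y
      simp [Finset.sum_apply, Pi.single_apply]
    rw [this]
    exact Submodule.sum_mem _ fun x _ => Submodule.smul_mem _ _ (hmem x)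
  have h3 := LinearMap.finrank_range_le ν
  rw [htop, finrank_top, Module.finrank_prod, Module.finrank_tensorProduct,
    Module.finrank_fintype_fun_eq_card] at h3
  calc _ ≤ _ := h3
    _ = _ := by ring

variable {V : Type*} [Fintype V] [DecidableEq V]
variable {G : SimpleGraph V} [DecidableRel G.Adj] {T θ0 θ1 θ2 : ℝ} {α : V → ℝ}

/-- the smallest eigenvalue is not `-1` -/
lemma theta2_ne (h : Dat G T θ0 θ1 θ2 α) (hreg : ¬ ∃ d, G.IsRegularOfDegree d) : θ2 + 1 ≠ 0 := by
  intro h2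
  apply hreg
  apply h.reg_of_const
  have key : ∀ x y, G.Adj x y → α y ≤ α x := by
    intro x y hxy
    have h3 := cd_le_deg_adj x y hxy
    rw [h.adj x y hxy, h.diag x] at h3
    have hx := h.pos x
    have h4 : θ2 = -1 := by linarith
    rw [h4] at h3
    have : α x * α y ≤ α x * α x := by nlinarith
    exact le_of_mul_le_mul_left this hx
  intro x y hxy
  exact le_antisymm (key y x hxy.symm) (key x y hxy)

/-- the eigenspace of `θ2` and its dimension -/
lemma eigsp (h : Dat G T θ0 θ1 θ2 α) :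
    ∃ E : Submodule ℝ (V → ℝ), ((Fintype.card V : ℝ) - 1) * θ1 + θ0
        = (θ1 - θ2) * (Module.finrank ℝ E : ℝ) ∧
      (∀ c ∈ E, ∀ x, ∑ y, ad G x y * c y = θ2 * c x) ∧
      ∀ c : V → ℝ, ∃ e ∈ E, ∃ r : ℝ, ∀ x, ∑ y, ad G x y * c y - θ1 * c x = e x + r * α x := by
  have hθ02 : 0 < θ0 - θ2 := by linarith [h.h01, h.h12]
  have hθ12 : 0 < θ1 - θ2 := by linarith [h.h12]
  set κ : ℝ := 1 / (θ0 - θ2) with hκ
  have hκ1 : κ * (θ0 - θ2) = 1 := by rw [hκ]; field_simp
  let f : (V → ℝ) →ₗ[ℝ] (V → ℝ) :=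
    { toFun := fun c x => (θ1 * c x - ∑ y, ad G x y * c y + κ * (∑ z, α z * c z) * α x)
        / (θ1 - θ2)
      map_add' := by
        intro c d
        ext x
        simp only [Pi.add_apply, mul_add, Finset.sum_add_distrib]
        ring
      map_smul' := by
        intro r c
        ext x
        simp only [Pi.smul_apply, smul_eq_mul, RingHom.id_apply]
        have e1 : ∑ y, ad G x y * (r * c y) = r * ∑ y, ad G x y * c y := by
          rw [Finset.mul_sum]; exact Finset.sum_congr rfl fun y _ => by ring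
        have e2 : ∑ z, α z * (r * c z) = r * ∑ z, α z * c z := by
          rw [Finset.mul_sum]; exact Finset.sum_congr rfl fun y _ => by ring
        rw [e1, e2]; ring }
  have hfa : ∀ c x, f c x = (θ1 * c x - ∑ y, ad G x y * c y + κ * (∑ z, α z * c z) * α x)
        / (θ1 - θ2) := fun c x => rfl
  have hA : ∀ c x, ∑ y, ad G x y * f c y = θ2 * f c x := by
    intro c x
    have h1 := h.op c x
    have h2 := h.eig x
    have h3 : ∑ y, ad G x y * f c y = (θ1 * ∑ y, ad G x y * c y
        - ∑ y, ad G x y * (∑ z, ad G y z * c z) + κ * (∑ z, α z * c z) * ∑ y, ad G x y * α y)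
        / (θ1 - θ2) := by
      rw [Finset.mul_sum, Finset.mul_sum, ← Finset.sum_sub_distrib, ← Finset.sum_add_distrib,
        Finset.sum_div]
      refine Finset.sum_congr rfl fun y _ => ?_
      rw [hfa]
      ring
    rw [h3, h2, hfa]
    rw [div_eq_iff hθ12.ne']
    have e9 : θ2 * ((θ1 * c x - ∑ y, ad G x y * c y + κ * (∑ z, α z * c z) * α x) / (θ1 - θ2))
        * (θ1 - θ2) = θ2 * (θ1 * c x - ∑ y, ad G x y * c y + κ * (∑ z, α z * c z) * α x) := by
      field_simp
    rw [e9]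
    linear_combination (-1 : ℝ) * h1 + α x * (∑ z, α z * c z) * hκ1
  have hα0 : ∀ c, ∑ x, α x * f c x = 0 := by
    intro c
    have h1 : ∑ x, f c x * ∑ y, ad G x y * α y = θ0 * ∑ x, α x * f c x := by
      rw [Finset.mul_sum]
      refine Finset.sum_congr rfl fun x _ => ?_
      rw [h.eig x]; ring
    have h2 : ∑ x, f c x * ∑ y, ad G x y * α y = θ2 * ∑ x, α x * f c x := by
      rw [ad_adjoint, Finset.mul_sum]
      refine Finset.sum_congr rfl fun x _ => ?_
      rw [hA c x]; ring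
    have h3 : (θ0 - θ2) * ∑ x, α x * f c x = 0 := by linarith
    exact (mul_eq_zero.mp h3).resolve_left hθ02.ne'
  have hidem : IsIdempotentElem f := by
    apply LinearMap.ext
    intro c
    ext x
    have : (f * f) c x = f (f c) x := rfl
    rw [this, hfa (f c) x, hA c x, hα0 c]
    rw [mul_zero, zero_mul, add_zero, div_eq_iff hθ12.ne']
    ring
  have htr := ((LinearMap.isProj_range_iff_isIdempotentElem f).mpr hidem).trace
  have hmt : LinearMap.trace ℝ (V → ℝ) f = ∑ x, f (Pi.single x 1) x := by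
    rw [LinearMap.trace_eq_matrix_trace ℝ (Pi.basisFun ℝ V) f, Matrix.trace]
    refine Finset.sum_congr rfl fun x _ => ?_
    rw [Matrix.diag_apply, LinearMap.toMatrix_apply]
    simp
  have hval : ∑ x, f (Pi.single x 1) x =
      (((Fintype.card V : ℝ) - 1) * θ1 + θ0) / (θ1 - θ2) := by
    have e1 : ∀ x : V, f (Pi.single x 1) x = θ1 / (θ1 - θ2) + κ / (θ1 - θ2) * α x ^ 2 := by
      intro x
      rw [hfa]
      have a1 : ∑ y, ad G x y * (Pi.single x (1 : ℝ) : V → ℝ) y = 0 := by
        refine Finset.sum_eq_zero fun y _ => ?_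
        by_cases hy : y = x
        · rw [hy]; unfold ad; simp
        · rw [Pi.single_eq_of_ne hy]; ring
      have a2 : ∑ z, α z * (Pi.single x (1 : ℝ) : V → ℝ) z = α x := by
        rw [Finset.sum_eq_single x]
        · simp
        · intro z _ hz; rw [Pi.single_eq_of_ne hz]; ring
        · intro hh; exact absurd (Finset.mem_univ _) hh
      rw [a1, a2]
      simp only [Pi.single_eq_same]
      ring
    rw [Finset.sum_congr rfl fun x _ => e1 x, Finset.sum_add_distrib, Finset.sum_const,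
      Finset.card_univ, nsmul_eq_mul, ← Finset.mul_sum, norm_sq h]
    field_simp
    linear_combination (θ0 - θ1) * hκ1
  rw [hmt, hval, div_eq_iff hθ12.ne'] at htr
  refine ⟨LinearMap.range f, ?_, ?_, ?_⟩
  · rw [htr]; ring
  · rintro c ⟨d, rfl⟩ x
    exact hA d x
  · intro c
    refine ⟨(-(θ1 - θ2)) • f c, Submodule.smul_mem _ _ (LinearMap.mem_range_self _ _),
      κ * (∑ z, α z * c z), fun x => ?_⟩
    rw [Pi.smul_apply, smul_eq_mul, hfa]
    field_simp
    ring

/-- the matrix `A - θ` -/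
def BM (G : SimpleGraph V) [DecidableRel G.Adj] (θ : ℝ) (x y : V) : ℝ :=
  ad G x y - if x = y then θ else 0

lemma BM_sq (θ : ℝ) (x y : V) :
    BM G θ x y ^ 2 - BM G θ x y = if x = y then θ ^ 2 + θ else 0 := by
  unfold BM
  by_cases hxy : x = y
  · subst hxy
    have : ad G x x = 0 := by unfold ad; simp
    rw [if_pos rfl, if_pos rfl, this]; ring
  · rw [if_neg hxy, if_neg hxy]
    unfold ad
    split_ifs <;> ring

/-- absolute bound, first form -/
lemma abs1 (h : Dat G T θ0 θ1 θ2 α) (h1 : 0 < θ1) (E : Submodule ℝ (V → ℝ))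
    (hE : ∀ c : V → ℝ, ∃ e ∈ E, ∃ r : ℝ, ∀ x, ∑ y, ad G x y * c y - θ1 * c x = e x + r * α x) :
    Fintype.card V ≤ (Module.finrank ℝ E + 1) ^ 2 + (Module.finrank ℝ E + 1) := by
  set W : Submodule ℝ (V → ℝ) := E ⊔ Submodule.span ℝ {α} with hW
  have hr : Module.finrank ℝ W ≤ Module.finrank ℝ E + 1 := by
    have h2 := Submodule.finrank_add_le_finrank_add_finrank E (Submodule.span ℝ {α})
    have h3 : Module.finrank ℝ (Submodule.span ℝ ({α} : Set (V → ℝ))) ≤ 1 := by
      have := finrank_span_le_card (R := ℝ) ({α} : Set (V → ℝ))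
      simpa using this
    rw [hW]
    omega
  have hB : ∀ x, BM G θ1 x ∈ W := by
    intro x
    obtain ⟨e, he, r, hr⟩ := hE (Pi.single x 1)
    have : BM G θ1 x = e + r • α := by
      ext y
      rw [Pi.add_apply, Pi.smul_apply, smul_eq_mul, ← hr y]
      unfold BM
      have e1 : ∑ z, ad G y z * (Pi.single x (1 : ℝ) : V → ℝ) z = ad G y x := by
        rw [Finset.sum_eq_single x]
        · simp
        · intro z _ hz; rw [Pi.single_eq_of_ne hz]; ring
        · intro hh; exact absurd (Finset.mem_univ _) hh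
      rw [e1, ad_symm y x]
      by_cases hxy : x = y
      · subst hxy; simp
      · rw [if_neg hxy, Pi.single_eq_of_ne (Ne.symm hxy)]; ring
    rw [this]
    exact Submodule.add_mem_sup he (Submodule.smul_mem _ _ (Submodule.mem_span_singleton_self α))
  have h2 := hadamard_rank (BM G θ1) W hB (θ1 ^ 2 + θ1) (by positivity) (BM_sq θ1)
  have h3 : Module.finrank ℝ W ^ 2 ≤ (Module.finrank ℝ E + 1) ^ 2 := Nat.pow_le_pow_left hr 2
  omega

/-- absolute bound, second form -/
lemma abs2 (h : Dat G T θ0 θ1 θ2 α) (hreg : ¬ ∃ d, G.IsRegularOfDegree d)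
    (E : Submodule ℝ (V → ℝ))
    (hE : ∀ c ∈ E, ∀ x, ∑ y, ad G x y * c y = θ2 * c x) :
    ∃ D : ℕ, D + Module.finrank ℝ E ≤ Fintype.card V ∧ Fintype.card V ≤ D ^ 2 + D := by
  have h2 := TS.theta2_neg h hreg
  have h3 := theta2_ne h hreg
  let F : (V → ℝ) →ₗ[ℝ] (V → ℝ) :=
    { toFun := fun c x => ∑ y, ad G x y * c y - θ2 * c x
      map_add' := by
        intro c d
        ext x
        simp only [Pi.add_apply, mul_add, Finset.sum_add_distrib]
        ring
      map_smul' := by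
        intro r c
        ext x
        simp only [Pi.smul_apply, smul_eq_mul, RingHom.id_apply]
        have e1 : ∑ y, ad G x y * (r * c y) = r * ∑ y, ad G x y * c y := by
          rw [Finset.mul_sum]; exact Finset.sum_congr rfl fun y _ => by ring
        rw [e1]; ring }
  have hFa : ∀ c x, F c x = ∑ y, ad G x y * c y - θ2 * c x := fun c x => rfl
  have hker : E ≤ LinearMap.ker F := by
    intro c hc
    rw [LinearMap.mem_ker]
    ext x
    rw [hFa, hE c hc x]; simp
  have hrn := F.finrank_range_add_finrank_ker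
  rw [Module.finrank_fintype_fun_eq_card] at hrn
  have hk := Submodule.finrank_mono hker
  refine ⟨Module.finrank ℝ (LinearMap.range F), by omega, ?_⟩
  have hB : ∀ x, BM G θ2 x ∈ LinearMap.range F := by
    intro x
    refine ⟨Pi.single x 1, ?_⟩
    ext y
    rw [hFa]
    unfold BM
    have e1 : ∑ z, ad G y z * (Pi.single x (1 : ℝ) : V → ℝ) z = ad G y x := by
      rw [Finset.sum_eq_single x]
      · simp
      · intro z _ hz; rw [Pi.single_eq_of_ne hz]; ring
      · intro hh; exact absurd (Finset.mem_univ _) hh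
    rw [e1, ad_symm y x]
    by_cases hxy : x = y
    · subst hxy; simp
    · rw [if_neg hxy, Pi.single_eq_of_ne (Ne.symm hxy)]; ring
  exact hadamard_rank (BM G θ2) _ hB (θ2 ^ 2 + θ2) (by
    have : θ2 * (θ2 + 1) ≠ 0 := mul_ne_zero h2.ne h3
    intro hh; apply this; linarith) (BM_sq θ2)

/-- the absolute bound for both eigenvalues, `s` is the sum of the valencies -/
theorem abs_bound (h : Dat G T θ0 θ1 θ2 α) (hreg : ¬ ∃ d, G.IsRegularOfDegree d) (h1 : 0 < θ1) :
    max θ1 (-θ2) ^ 4 * (Fintype.card V : ℝ) ≤ 24 * (∑ x, (G.degree x : ℝ)) ^ 2 := by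
  have h2 := TS.theta2_neg h hreg
  obtain ⟨E, hg, hE1, hE2⟩ := eigsp h
  set n : ℝ := (Fintype.card V : ℝ) with hn
  set g : ℕ := Module.finrank ℝ E with hgd
  have hn1 : 1 ≤ n := by
    obtain ⟨x0⟩ := h.conn.nonempty
    have : 1 ≤ Fintype.card V := Fintype.card_pos_iff.mpr ⟨x0⟩
    rw [hn]; exact_mod_cast this
  have h01 := h.h01
  set e2 : ℝ := ∑ x, (G.degree x : ℝ) with he2
  have hdeg : e2 = (θ0 - θ1) * (θ0 - θ2) - θ1 * θ2 * n := by
    rw [he2, Finset.sum_congr rfl fun x _ => h.diag x, Finset.sum_sub_distrib, norm_sq h,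
      Finset.sum_const, Finset.card_univ, nsmul_eq_mul, ← hn]
    ring
  have ht : 0 < -(θ1 * θ2) := by nlinarith
  have hN : 0 < (θ0 - θ1) * (θ0 - θ2) := mul_pos (by linarith) (by linarith)
  have htn : -(θ1 * θ2) * n ≤ e2 := by rw [hdeg]; nlinarith
  have he0 : 0 < e2 := lt_of_lt_of_le (mul_pos ht (by linarith)) htn
  have hD : 0 < θ1 - θ2 := by linarith
  rcases le_total θ1 (-θ2) with hle | hle
  · rw [max_eq_right hle]
    have hcard := abs1 h h1 E hE2
    have hg0 : 0 < g := by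
      rcases Nat.eq_zero_or_pos g with h0 | h0
      · exfalso
        rw [h0] at hg
        have : 0 ≤ (n - 1) * θ1 := mul_nonneg (by linarith) h1.le
        have := h.h0
        simp at hg
        linarith
      · exact h0
    have hc2 : n ≤ 6 * (g : ℝ) ^ 2 := by
      have : Fintype.card V ≤ 6 * g ^ 2 := by
        have : 1 ≤ g := hg0
        nlinarith
      rw [hn]; exact_mod_cast this
    -- `b² g ≤ 2 e2`
    have hb : (-θ2) ^ 2 * g ≤ 2 * e2 := by
      have q1 : (-θ2) ^ 2 * g * (θ1 - θ2) = (-θ2) ^ 2 * ((n - 1) * θ1 + θ0) := by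
        rw [hg]; ring
      have q2 : (-θ2) ^ 2 * ((n - 1) * θ1 + θ0) ≤ 2 * e2 * (θ1 - θ2) := by
        have q3 : (-θ2) * ((n - 1) * θ1 + θ0) ≤ 2 * e2 := by
          have q4 : (-θ2) * θ0 ≤ e2 := by
            rw [hdeg]
            have q5 : 0 ≤ θ0 * (θ0 - θ1) := mul_nonneg h.h0.le (by linarith)
            have q6 : 0 ≤ -(θ1 * θ2) * (n - 1) := mul_nonneg ht.le (by linarith)
            nlinarith
          nlinarith
        calc (-θ2) ^ 2 * ((n - 1) * θ1 + θ0) = (-θ2) * ((-θ2) * ((n - 1) * θ1 + θ0)) := by ring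
          _ ≤ (-θ2) * (2 * e2) := mul_le_mul_of_nonneg_left q3 (by linarith)
          _ ≤ (θ1 - θ2) * (2 * e2) := mul_le_mul_of_nonneg_right (by linarith) (by linarith)
          _ = _ := by ring
      rw [← q1] at q2
      exact le_of_mul_le_mul_right q2 hD
    have hb2 : ((-θ2) ^ 2 * g) ^ 2 ≤ (2 * e2) ^ 2 := pow_le_pow_left₀ (by positivity) hb 2
    have hb4 : 0 ≤ (-θ2) ^ 4 := by positivity
    calc (-θ2) ^ 4 * n ≤ (-θ2) ^ 4 * (6 * (g : ℝ) ^ 2) := mul_le_mul_of_nonneg_left hc2 hb4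
      _ = 6 * ((-θ2) ^ 2 * g) ^ 2 := by ring
      _ ≤ 6 * (2 * e2) ^ 2 := by linarith
      _ = 24 * e2 ^ 2 := by ring
  · rw [max_eq_left hle]
    obtain ⟨D, hD1, hD2⟩ := abs2 h hreg E hE1
    have hD1' : (D : ℝ) + g ≤ n := by rw [hn]; exact_mod_cast hD1
    have hD0 : 1 ≤ D := by
      rcases Nat.eq_zero_or_pos D with h0 | h0
      · exfalso
        rw [h0] at hD2
        have : 1 ≤ Fintype.card V := by
          rw [hn] at hn1; exact_mod_cast hn1
        omega
      · exact h0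
    have hc2 : n ≤ 2 * (D : ℝ) ^ 2 := by
      have : Fintype.card V ≤ 2 * D ^ 2 := by nlinarith
      rw [hn]; exact_mod_cast this
    have ha : θ1 ^ 2 * D ≤ e2 := by
      have q1 : (θ1 - θ2) * D ≤ -θ2 * n := by
        have q2 : (θ1 - θ2) * ((D : ℝ) + g) ≤ (θ1 - θ2) * n := mul_le_mul_of_nonneg_left hD1' hD.le
        nlinarith
      have q3 : θ1 * D ≤ -θ2 * n := by
        have : 0 ≤ -θ2 * D := mul_nonneg (by linarith) (Nat.cast_nonneg _)
        nlinarith
      calc θ1 ^ 2 * D = θ1 * (θ1 * D) := by ring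
        _ ≤ θ1 * (-θ2 * n) := mul_le_mul_of_nonneg_left q3 h1.le
        _ = -(θ1 * θ2) * n := by ring
        _ ≤ e2 := htn
    have ha2 : (θ1 ^ 2 * D) ^ 2 ≤ e2 ^ 2 := pow_le_pow_left₀ (by positivity) ha 2
    have ha4 : 0 ≤ θ1 ^ 4 := by positivity
    calc θ1 ^ 4 * n ≤ θ1 ^ 4 * (2 * (D : ℝ) ^ 2) := mul_le_mul_of_nonneg_left hc2 ha4
      _ = 2 * (θ1 ^ 2 * D) ^ 2 := by ring
      _ ≤ 2 * e2 ^ 2 := by linarith
      _ ≤ 24 * e2 ^ 2 := by nlinarith [sq_nonneg e2]

end VB
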