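import Mathlib
import Pool.Agent.TS.Alg

set_option autoImplicit false
set_option linter.unusedSectionVars false
set_option linter.unusedSimpArgs false

/-! Graphs with three eigenvalues: if `-θ2 < θ1` then both are integers and `2 ≤ -θ2`. -/

namespace VB

open Finset TE TS

variable {V : Type*} [Fintype V] [DecidableEq V]
variable {G : SimpleGraph V} [DecidableRel G.Adj] {T θ0 θ1 θ2 : ℝ} {α : V → ℝ}

/-- the smallest eigenvalue is not `-1` -/
lemma theta2_ne' (h : Dat G T θ0 θ1 θ2 α) (hreg : ¬ ∃ d, G.IsRegularOfDegree d) : θ2 ≠ -1 := by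
  intro h4
  apply hreg
  apply h.reg_of_const
  have key : ∀ x y, G.Adj x y → α y ≤ α x := by
    intro x y hxy
    have h3 := cd_le_deg_adj x y hxy
    rw [h.adj x y hxy, h.diag x] at h3
    have hx := h.pos x
    rw [h4] at h3
    have : α x * α y ≤ α x * α x := by nlinarith
    exact le_of_mul_le_mul_left this hx
  intro x y hxy
  exact le_antisymm (key y x hxy.symm) (key x y hxy)

lemma int_theta1 (h : Dat G T θ0 θ1 θ2 α) (hreg : ¬ ∃ d, G.IsRegularOfDegree d) (h1 : 0 < θ1)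
    (hpos : 0 < θ1 + θ2) : ∃ k : ℤ, θ1 = k := by
  obtain ⟨ms, hms⟩ := int_sum h hreg h1
  obtain ⟨mt, hmt⟩ := h.int_tau hreg
  obtain ⟨m, hm⟩ := trace_nat h
  have hns := norm_sq h
  have hth := th0_le h
  have hint : ∃ w : ℤ, ∑ x, α x ^ 2 = w := by
    choose g hg using fun x => h.int_sq hreg x
    refine ⟨∑ x, g x, ?_⟩
    push_cast
    exact Finset.sum_congr rfl fun x _ => hg x
  obtain ⟨w, hw⟩ := hint
  set n : ℝ := (Fintype.card V : ℝ) with hn
  set δ := θ1 - θ2 with hδ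
  have hδ2 : δ ^ 2 = ((ms ^ 2 - 4 * mt : ℤ) : ℝ) := by
    push_cast; rw [← hms, ← hmt, hδ]; ring
  have hθ1 : θ1 = (δ + (ms : ℝ)) / 2 := by rw [← hms, hδ]; ring
  set q : ℝ := (m : ℝ) - (n - 1) / 2 with hq
  set p : ℝ := -((n - 1) * ms) / 2 with hp
  have hθ0 : θ0 = p + q * δ := by
    have e1 : (n - 1) * ((δ + (ms : ℝ)) / 2) + θ0 = δ * m := by rw [← hθ1]; exact hm
    rw [hp, hq]; linarith
  have hw2 : θ0 ^ 2 - ms * θ0 + mt = w := by
    rw [← hw, hns, ← hms, ← hmt]; ring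
  have hnpos : 0 < n := by
    obtain ⟨x0⟩ := h.conn.nonempty
    rw [hn]
    exact_mod_cast Fintype.card_pos_iff.mpr ⟨x0⟩
  have hnK : n ∈ KQ := natCast_mem _ _
  have hmK : (m : ℝ) ∈ KQ := natCast_mem _ _
  have hmsK : (ms : ℝ) ∈ KQ := intCast_mem _ _
  have hmtK : (mt : ℝ) ∈ KQ := intCast_mem _ _
  have hwK : (w : ℝ) ∈ KQ := intCast_mem _ _
  have h2K : (2 : ℝ) ∈ KQ := by exact_mod_cast natCast_mem KQ 2
  have h1K : (1 : ℝ) ∈ KQ := one_mem _
  have hqK : q ∈ KQ := sub_mem hmK (div_mem (sub_mem hnK h1K) h2K)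
  have hpK : p ∈ KQ := div_mem (neg_mem (mul_mem (sub_mem hnK h1K) hmsK)) h2K
  have hδ2K : δ ^ 2 ∈ KQ := by rw [hδ2]; exact intCast_mem _ _
  have hms2 : 0 < (ms : ℝ) := by rw [← hms]; linarith
  have hδK : δ ∈ KQ := by
    by_contra hcon
    have e1 : q * (2 * p - ms) * δ = w - mt - p ^ 2 - q ^ 2 * δ ^ 2 + ms * p := by
      have := hw2
      rw [hθ0] at this
      linear_combination this
    have e2 : q * (2 * p - ms) * δ ∈ KQ := by
      rw [e1]
      exact add_mem (sub_mem (sub_mem (sub_mem hwK hmtK) (pow_mem hpK 2))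
        (mul_mem (pow_mem hqK 2) hδ2K)) (mul_mem hmsK hpK)
    have e3 : q * (2 * p - ms) ∈ KQ := mul_mem hqK (sub_mem (mul_mem h2K hpK) hmsK)
    have e4 : q * (2 * p - ms) = 0 := by
      by_contra hne
      apply hcon
      have : δ = (q * (2 * p - ms) * δ) / (q * (2 * p - ms)) :=
        (mul_div_cancel_left₀ δ hne).symm
      rw [this]; exact div_mem e2 e3
    have e5 : 2 * p - ms = -(n * ms) := by rw [hp]; ring
    have e6 : 2 * p - ms ≠ 0 := by
      rw [e5]
      have : 0 < n * ms := mul_pos hnpos hms2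
      linarith
    have e7 : q = 0 := (mul_eq_zero.mp e4).resolve_right e6
    rw [e7, zero_mul, add_zero, hp] at hθ0
    have e8 : 0 < θ0 := h.h0
    have e9 : 0 ≤ n - 1 := by linarith
    have e10 : 0 ≤ (n - 1) * ms := mul_nonneg e9 hms2.le
    linarith
  have hθ1K : θ1 ∈ KQ := by rw [hθ1]; exact div_mem (add_mem hδK hmsK) h2K
  have hint1 : IsIntegral ℤ θ1 := by
    refine ⟨Polynomial.X ^ 2 - Polynomial.C ms * Polynomial.X + Polynomial.C mt, ?_, ?_⟩
    · have : (Polynomial.X ^ 2 - Polynomial.C ms * Polynomial.X + Polynomial.C mt :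
          Polynomial ℤ) = Polynomial.X ^ 2 + (-(Polynomial.C ms * Polynomial.X)
            + Polynomial.C mt) := by ring
      rw [this]
      apply Polynomial.monic_X_pow_add
      have hd : (-(Polynomial.C ms * Polynomial.X) + Polynomial.C mt : Polynomial ℤ) =
          Polynomial.C (-ms) * Polynomial.X + Polynomial.C mt := by simp
      rw [hd]
      exact lt_of_le_of_lt Polynomial.degree_linear_le (by norm_num)
    · simp only [Polynomial.eval₂_add, Polynomial.eval₂_sub, Polynomial.eval₂_mul,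
        Polynomial.eval₂_pow, Polynomial.eval₂_X, Polynomial.eval₂_C]
      simp only [eq_intCast]
      rw [← hms, ← hmt]; ring
  exact rat_int θ1 hint1 hθ1K

/-- if `-θ2 < θ1` then `2 ≤ -θ2` -/
lemma u_two (h : Dat G T θ0 θ1 θ2 α) (hreg : ¬ ∃ d, G.IsRegularOfDegree d)
    (hlt : -θ2 < θ1) : 2 ≤ -θ2 := by
  have h2 := TS.theta2_neg h hreg
  have h1 : 0 < θ1 := by linarith
  obtain ⟨k, hk⟩ := int_theta1 h hreg h1 (by linarith)
  obtain ⟨ms, hms⟩ := int_sum h hreg h1
  have e : θ2 = ((ms - k : ℤ) : ℝ) := by push_cast; rw [← hms, ← hk]; ring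
  rw [e] at h2
  have h3 : ms - k < 0 := by exact_mod_cast h2
  have h4 : ms - k ≠ -1 := by
    intro h5
    apply theta2_ne' h hreg
    rw [e, h5]; norm_num
  have h5 : ms - k ≤ -2 := by omega
  have h6 : ((ms - k : ℤ) : ℝ) ≤ -2 := by exact_mod_cast h5
  rw [e]; linarith

end VB
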