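import Mathlib
import Pool.Agent.VB.A

set_option autoImplicit false
set_option linter.unusedSectionVars false
set_option linter.unusedSimpArgs false

/-! Graphs with three eigenvalues: the number of distinct valencies, main inequality. -/

namespace VB

open Finset TE TS

variable {V : Type*} [Fintype V] [DecidableEq V]
variable {G : SimpleGraph V} [DecidableRel G.Adj] {T θ0 θ1 θ2 : ℝ} {α : V → ℝ}

/-- different values of `α` differ by at least one -/
lemma gap_one (h : Dat G T θ0 θ1 θ2 α) (hreg : ¬ ∃ d, G.IsRegularOfDegree d) (h1 : 0 < θ1)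
    {u v : V} (huv : G.degree u < G.degree v) : 1 ≤ α v - α u := by
  have hu := h.pos u
  have hv := h.pos v
  have e1 : (G.degree u : ℝ) < G.degree v := by exact_mod_cast huv
  rw [h.diag u, h.diag v] at e1
  have e2 : α u < α v := by nlinarith
  obtain ⟨a, ha⟩ := int_mul h hreg h1 u u
  obtain ⟨b, hb⟩ := int_mul h hreg h1 v v
  obtain ⟨c, hc⟩ := int_mul h hreg h1 u v
  have e3 : (α v - α u) ^ 2 = ((a + b - 2 * c : ℤ) : ℝ) := by
    push_cast; rw [← ha, ← hb, ← hc]; ring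
  have e4 : 0 < (α v - α u) ^ 2 := by
    have : 0 < α v - α u := by linarith
    positivity
  rw [e3] at e4
  have e5 : (1 : ℤ) ≤ a + b - 2 * c := by exact_mod_cast e4
  have e6 : (1 : ℝ) ≤ (α v - α u) ^ 2 := by rw [e3]; exact_mod_cast e5
  nlinarith

/-- an enumeration of vertices of different valencies -/
lemma exists_enum (h : Dat G T θ0 θ1 θ2 α) (hreg : ¬ ∃ d, G.IsRegularOfDegree d) (h1 : 0 < θ1) :
    ∃ v : Fin (univ.image (fun x => G.degree x)).card → V,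
      ∀ i j : Fin (univ.image (fun x => G.degree x)).card,
        i < j → ((j : ℕ) : ℝ) - ((i : ℕ) : ℝ) ≤ α (v j) - α (v i) := by
  set D := univ.image (fun x => G.degree x) with hD
  have hv : ∀ i : Fin D.card, ∃ x, G.degree x = D.orderEmbOfFin rfl i := by
    intro i
    obtain ⟨x, _, hx⟩ := Finset.mem_image.mp (D.orderEmbOfFin_mem rfl i)
    exact ⟨x, hx⟩
  choose v hv using hv
  refine ⟨v, ?_⟩
  have step : ∀ i j, i < j → 1 ≤ α (v j) - α (v i) := by
    intro i j hij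
    apply gap_one h hreg h1
    rw [hv, hv]
    exact (D.orderEmbOfFin rfl).strictMono hij
  have key : ∀ s : ℕ, ∀ i j : Fin D.card, (j : ℕ) = i + (s + 1) →
      ((s + 1 : ℕ) : ℝ) ≤ α (v j) - α (v i) := by
    intro s
    induction s with
    | zero =>
      intro i j hij
      have := step i j (by rw [Fin.lt_def]; omega)
      push_cast; linarith
    | succ s ih =>
      intro i j hij
      have hlt : (i : ℕ) + (s + 1) < D.card := by have := j.2; omega
      have e1 := ih i ⟨i + (s + 1), hlt⟩ rfl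
      have e2 := step ⟨i + (s + 1), hlt⟩ j (by rw [Fin.lt_def]; simp only; omega)
      push_cast at e1 ⊢
      linarith
  intro i j hij
  rw [Fin.lt_def] at hij
  have := key (j - i - 1) i j (by omega)
  have e : ((j : ℕ) : ℝ) - ((i : ℕ) : ℝ) = ((j - i - 1 + 1 : ℕ) : ℝ) := by
    have : (j : ℕ) - i - 1 + 1 = j - i := by omega
    rw [this, Nat.cast_sub hij.le]
  rw [e]; exact this

/-- the number of distinct valencies, main inequality -/
theorem count_five (h : Dat G T θ0 θ1 θ2 α) (hreg : ¬ ∃ d, G.IsRegularOfDegree d) (h1 : 0 < θ1)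
    (m : ℕ) (hm : 3 * m ≤ (univ.image (fun x => G.degree x)).card) :
    (m : ℝ) ^ 5 ≤ (Fintype.card V : ℝ) * (4 * |θ1 + θ2| * m + 3 / 2 * (-(θ1 * θ2))) := by
  have h2 := TS.theta2_neg h hreg
  have hc0 : 0 ≤ -(θ1 * θ2) := by nlinarith
  rcases Nat.eq_zero_or_pos m with hm0 | hm0
  · subst hm0
    have : (0 : ℝ) ≤ Fintype.card V := Nat.cast_nonneg _
    have h3 : 0 ≤ 4 * |θ1 + θ2| * ((0 : ℕ) : ℝ) + 3 / 2 * (-(θ1 * θ2)) := by
      have := abs_nonneg (θ1 + θ2)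
      simp; linarith
    have h4 := mul_nonneg this h3
    simpa using h4
  obtain ⟨k, hk⟩ : ∃ k, k = (univ.image (fun x => G.degree x)).card := ⟨_, rfl⟩
  obtain ⟨v, hv⟩ : ∃ v : Fin k → V,
      ∀ i j : Fin k, i < j → ((j : ℕ) : ℝ) - ((i : ℕ) : ℝ) ≤ α (v j) - α (v i) := by
    rw [hk]; exact exists_enum h hreg h1
  rw [← hk] at hm
  have hM : (0 : ℝ) < m := by exact_mod_cast hm0
  have ix : ∀ (i : Fin m) (t : Fin 3), (i : ℕ) + t * m < k := by
    intro i t
    have h3 := i.2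
    have h4 : (t : ℕ) ≤ 2 := by have := t.2; omega
    have h5 : (t : ℕ) * m ≤ 2 * m := Nat.mul_le_mul_right m h4
    omega
  let w : Fin m × Fin 3 → V := fun j => v ⟨j.1 + j.2 * m, ix j.1 j.2⟩
  have hvinj : Function.Injective v := by
    intro i j hij
    by_contra hne
    rcases lt_or_gt_of_ne hne with hlt | hlt
    · have := hv i j hlt
      rw [hij, sub_self] at this
      have h3 : ((i : ℕ) : ℝ) < (j : ℕ) := by exact_mod_cast hlt
      linarith
    · have := hv j i hlt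
      rw [hij, sub_self] at this
      have h3 : ((j : ℕ) : ℝ) < (i : ℕ) := by exact_mod_cast hlt
      linarith
  have hw : Function.Injective w := by
    rintro ⟨i, t⟩ ⟨j, s⟩ hij
    have h3 := hvinj hij
    rw [Fin.mk.injEq] at h3
    simp only at h3
    have hi := i.2
    have hj := j.2
    have e1 : ((i : ℕ) + t * m) % m = i := by
      rw [Nat.add_mul_mod_self_right, Nat.mod_eq_of_lt hi]
    have e2 : ((j : ℕ) + s * m) % m = j := by
      rw [Nat.add_mul_mod_self_right, Nat.mod_eq_of_lt hj]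
    have e3 : (i : ℕ) = j := by rw [← e1, ← e2, h3]
    have e4 : (t : ℕ) * m = s * m := by omega
    have e5 : (t : ℕ) = s := Nat.eq_of_mul_eq_mul_right hm0 e4
    rw [Prod.mk.injEq]
    exact ⟨Fin.ext e3, Fin.ext e5⟩
  have hth : ∀ i : Fin m, ∃ a b c : ℝ, a + b + c = 0
      ∧ a * α (w (i, 0)) + b * α (w (i, 1)) + c * α (w (i, 2)) = 0
      ∧ a * α (w (i, 0)) ^ 2 + b * α (w (i, 1)) ^ 2 + c * α (w (i, 2)) ^ 2 = 1
      ∧ |a| ≤ 1 / (2 * (m : ℝ) ^ 2) ∧ |b| ≤ 1 / (m : ℝ) ^ 2 ∧ |c| ≤ 1 / (2 * (m : ℝ) ^ 2) := by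
    intro i
    apply three hM
    · refine le_trans (le_of_eq ?_)
        (hv ⟨i + ((0 : Fin 3) : ℕ) * m, ix i 0⟩ ⟨i + ((1 : Fin 3) : ℕ) * m, ix i 1⟩
        (by rw [Fin.lt_def]; simp; exact hm0))
      have e : (((1 : Fin 3) : ℕ) : ℝ) = 1 := by norm_num
      have e0 : (((0 : Fin 3) : ℕ) : ℝ) = 0 := by norm_num
      simp only
      push_cast
      rw [e, e0]; ring
    · refine le_trans (le_of_eq ?_)
        (hv ⟨i + ((1 : Fin 3) : ℕ) * m, ix i 1⟩ ⟨i + ((2 : Fin 3) : ℕ) * m, ix i 2⟩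
        (by
          rw [Fin.lt_def]
          have e : ((1 : Fin 3) : ℕ) = 1 := rfl
          have e2 : ((2 : Fin 3) : ℕ) = 2 := rfl
          simp only [e, e2]; omega))
      have e : (((1 : Fin 3) : ℕ) : ℝ) = 1 := by norm_num
      have e0 : (((2 : Fin 3) : ℕ) : ℝ) = 2 := by norm_num
      simp only
      push_cast
      rw [e, e0]; ring
  choose a b c ha0 ha1 ha2 hba hbb hbc using hth
  let cf : Fin m × Fin 3 → ℝ := fun j => ![a j.1, b j.1, c j.1] j.2
  have hs : ∀ φ : Fin m × Fin 3 → ℝ, ∑ j, φ j = ∑ i, (φ (i, 0) + φ (i, 1) + φ (i, 2)) := by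
    intro φ
    rw [Fintype.sum_prod_type]
    exact Finset.sum_congr rfl fun i _ => by rw [Fin.sum_univ_three]
  have c0 : ∀ i, cf (i, 0) = a i := fun i => rfl
  have c1 : ∀ i, cf (i, 1) = b i := fun i => rfl
  have c2 : ∀ i, cf (i, 2) = c i := fun i => rfl
  have key := bessel_fam h w hw cf
    (by rw [hs]; simp only [c0, c1, c2, ha0]; simp)
    (by rw [hs]; simp only [c0, c1, c2, ha1]; simp)
  have s2 : ∑ j, cf j * α (w j) ^ 2 = m := by
    rw [hs]; simp only [c0, c1, c2, ha2]; simp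
  have hm2 : (0 : ℝ) < (m : ℝ) ^ 2 := by positivity
  have s3 : ∑ j, |cf j| ≤ 2 / m := by
    rw [hs]; simp only [c0, c1, c2]
    have : ∀ i ∈ (univ : Finset (Fin m)), |a i| + |b i| + |c i| ≤ 2 / (m : ℝ) ^ 2 := by
      intro i _
      have e : 2 / (m : ℝ) ^ 2 = 1 / (2 * (m : ℝ) ^ 2) + 1 / (m : ℝ) ^ 2 + 1 / (2 * (m : ℝ) ^ 2) := by
        field_simp; ring
      rw [e]
      linarith [hba i, hbb i, hbc i]
    refine (Finset.sum_le_sum this).trans (le_of_eq ?_)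
    rw [Finset.sum_const, Finset.card_univ, Fintype.card_fin, nsmul_eq_mul]
    field_simp
  have s4 : ∑ j, cf j ^ 2 ≤ 3 / 2 / (m : ℝ) ^ 3 := by
    rw [hs]; simp only [c0, c1, c2]
    have : ∀ i ∈ (univ : Finset (Fin m)), a i ^ 2 + b i ^ 2 + c i ^ 2 ≤ 3 / 2 / (m : ℝ) ^ 4 := by
      intro i _
      have e : 3 / 2 / (m : ℝ) ^ 4 = (1 / (2 * (m : ℝ) ^ 2)) ^ 2 + (1 / (m : ℝ) ^ 2) ^ 2
          + (1 / (2 * (m : ℝ) ^ 2)) ^ 2 := by
        field_simp; ring
      rw [e]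
      have q1 : a i ^ 2 ≤ (1 / (2 * (m : ℝ) ^ 2)) ^ 2 := by
        rw [← sq_abs (a i)]; exact pow_le_pow_left₀ (abs_nonneg _) (hba i) 2
      have q2 : b i ^ 2 ≤ (1 / (m : ℝ) ^ 2) ^ 2 := by
        rw [← sq_abs (b i)]; exact pow_le_pow_left₀ (abs_nonneg _) (hbb i) 2
      have q3 : c i ^ 2 ≤ (1 / (2 * (m : ℝ) ^ 2)) ^ 2 := by
        rw [← sq_abs (c i)]; exact pow_le_pow_left₀ (abs_nonneg _) (hbc i) 2
      linarith
    refine (Finset.sum_le_sum this).trans (le_of_eq ?_)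
    rw [Finset.sum_const, Finset.card_univ, Fintype.card_fin, nsmul_eq_mul]
    field_simp
  rw [s2] at key
  have hn : (0 : ℝ) ≤ Fintype.card V := Nat.cast_nonneg _
  have s5 : (∑ j, |cf j|) ^ 2 ≤ (2 / m) ^ 2 :=
    pow_le_pow_left₀ (Finset.sum_nonneg fun j _ => abs_nonneg _) s3 2
  have s6 : |θ1 + θ2| * (∑ j, |cf j|) ^ 2 - θ1 * θ2 * ∑ j, cf j ^ 2
      ≤ |θ1 + θ2| * (2 / m) ^ 2 + (-(θ1 * θ2)) * (3 / 2 / (m : ℝ) ^ 3) := by
    have q1 := mul_le_mul_of_nonneg_left s5 (abs_nonneg (θ1 + θ2))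
    have q2 := mul_le_mul_of_nonneg_left s4 hc0
    linarith
  have s7 := key.trans (mul_le_mul_of_nonneg_left s6 hn)
  have s8 : (m : ℝ) ^ 2 * (m : ℝ) ^ 3 ≤ (Fintype.card V : ℝ) * (|θ1 + θ2| * (2 / m) ^ 2
      + (-(θ1 * θ2)) * (3 / 2 / (m : ℝ) ^ 3)) * (m : ℝ) ^ 3 :=
    mul_le_mul_of_nonneg_right s7 (by positivity)
  calc (m : ℝ) ^ 5 = (m : ℝ) ^ 2 * (m : ℝ) ^ 3 := by ring
    _ ≤ _ := s8
    _ = _ := by field_simp; ring

end VB
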